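import Pool.Agent.TH831.OE.Zt14

/-!
# Unramified representations of rank two of `p`-extensions of the rationals

Let `p` be an odd prime and let `K` be a number field which is unramified at all primes outside a
finite set `S` of primes, for example a subfield of the maximal `p`-extension of `ℚ` unramified
outside `S`; the prime `p` is allowed in `S`. Let `A` be a discrete valuation ring of characteristic
`0` with finite residue field of characteristic `p`. Suppose that the cup product of two linearly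
independent characters of the Galois group of `ℚ` with values in the residue field of `A`,
unramified outside `S`, never vanishes (where, if `p` is in `S`, the local condition at `p` is added
to those at the primes congruent to `1` modulo `p`). Then every continuous
`ρ : Gal(ℚbar/ℚ) → GL_2(A)`, residually unipotent, whose restriction to the absolute Galois group
of `K` is everywhere unramified, has finite image. The primes `7, 13, 31, 61` and `3, 7, 13` are
examples for `p = 3`.
-/

set_option autoImplicit false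

open NumberField Matrix IsLocalRing

namespace Pool.Agent.Results.MP_ca71b5_nt.RankTwoExtensions

/-- The number field `K` is unramified at all primes that do not lie above a prime number in `S`:
the inertia groups at these primes in the absolute Galois group of `ℚ` fix `K`. -/
def FieldUnramifiedOutside (S : Finset ℕ) (K : IntermediateField ℚ (AlgebraicClosure ℚ)) : Prop :=
  ∀ P : Ideal (𝓞 (AlgebraicClosure ℚ)), P.IsMaximal →
    (∀ l ∈ S, (l : 𝓞 (AlgebraicClosure ℚ)) ∉ P) →
      ∀ τ : Gal(AlgebraicClosure ℚ/ℚ), (∀ x : 𝓞 (AlgebraicClosure ℚ), τ • x - x ∈ P) →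
        τ ∈ K.fixingSubgroup

/-- The restriction of `ρ` to the absolute Galois group of `K` is unramified at all finite
primes. -/
def UnramifiedOver {A : Type} [CommRing A] (K : IntermediateField ℚ (AlgebraicClosure ℚ))
    (ρ : Gal(AlgebraicClosure ℚ/ℚ) →* GL (Fin 2) A) : Prop :=
  ∀ P : Ideal (𝓞 (AlgebraicClosure ℚ)), P.IsMaximal → ∀ τ ∈ K.fixingSubgroup,
    (∀ x : 𝓞 (AlgebraicClosure ℚ), τ • x - x ∈ P) → ρ τ = 1

/-- Every `ρ g` is unipotent modulo the maximal ideal: some power of `ρ g - 1` has all entries in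
the maximal ideal. -/
def ResiduallyUnipotent {A : Type} [CommRing A] [IsLocalRing A]
    (ρ : Gal(AlgebraicClosure ℚ/ℚ) →* GL (Fin 2) A) : Prop :=
  ∀ g, ∃ M : ℕ, ∀ i j, (((ρ g : Matrix (Fin 2) (Fin 2) A) - 1) ^ M) i j ∈ maximalIdeal A

/-- The members of `S` congruent to `1` modulo `p`. -/
def Tame (p : ℕ) (S : Finset ℕ) : Finset ℕ := S.filter fun l => p ∣ l - 1

/-- The linking number of the distinct primes `q` and `j`, with respect to a homomorphism
`χ : (ℤ/j)ˣ → ℤ/p`, as an element of a field `F` of characteristic `p`: the value of `χ` at the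
class of `q` (and `0` if `j` divides `q`). -/
noncomputable def linking (F : Type) [Field F] {p : ℕ} (j q : ℕ)
    (χ : (ZMod j)ˣ →* Multiplicative (ZMod p)) : F :=
  open Classical in if h : Nat.Coprime q j then
    ((Multiplicative.toAdd (χ (ZMod.unitOfCoprime q h))).val : F) else 0

/-- Characters of `Gal(ℚbar/ℚ)` with values in `F` unramified outside `S` are given by vectors
`(x_l)`, where `l` runs through `Tame p S`, and, if `p` is in `S`, an element `a` for the prime `p`;
the value at a Frobenius element at `l` is `∑ λ_lj x_j + ((l - 1) / p) a` up to a multiple of `x_l`,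
and the value at a Frobenius element at `p` is `∑ λ_pj x_j` up to a multiple of `a`. The condition
says: any two characters `(x, a)`, `(y, b)` such that `x_l y(Frob_l) = y_l x(Frob_l)` for all `l` in
`Tame p S` and `a y(Frob_p) = b x(Frob_p)` are linearly dependent. -/
def NoPlane (F : Type) [Field F] (p : ℕ) (S : Finset ℕ)
    (χ : ∀ j : ℕ, (ZMod j)ˣ →* Multiplicative (ZMod p)) : Prop :=
  ∀ (x y : ℕ → F) (a b : F), (p ∉ S → a = 0 ∧ b = 0) →
    (∀ l ∈ Tame p S,
      x l * (∑ j ∈ Tame p S, linking F j l (χ j) * y j + (((l - 1) / p : ℕ) : F) * b) =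
      y l * (∑ j ∈ Tame p S, linking F j l (χ j) * x j + (((l - 1) / p : ℕ) : F) * a)) →
    a * ∑ j ∈ Tame p S, linking F j p (χ j) * y j =
      b * ∑ j ∈ Tame p S, linking F j p (χ j) * x j →
    ∃ c d : F, (c ≠ 0 ∨ d ≠ 0) ∧ c * a = d * b ∧ ∀ l ∈ Tame p S, c * x l = d * y l

/-! ### Translation -/

theorem linking_eq {K : Type} [Field K] {p : ℕ} [hp : Fact p.Prime] [CharP K p] {j q : ℕ}
    (χ : (ZMod j)ˣ →* Multiplicative (ZMod p)) (x : (ZMod j)ˣ) (hx : (x : ZMod j) = (q : ZMod j)) :
    linking K j q χ = ZMod.castHom (dvd_refl p) K (Multiplicative.toAdd (χ x)) := by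
  have : NeZero p := ⟨hp.out.ne_zero⟩
  have h : Nat.Coprime q j := by
    rw [← ZMod.isUnit_iff_coprime, ← hx]
    exact x.isUnit
  unfold linking
  rw [dif_pos h, ZMod.castHom_apply, ZMod.natCast_val]
  congr 3
  exact Units.ext (by rw [hx]; rfl)

theorem fin_image {G H : Type} [Group G] [Group H] (ρ : G →* H) (N : Subgroup G)
    [Finite (G ⧸ N)] (I : Subgroup G) (h : ∀ g ∈ I, g ∈ N → ρ g = 1) :
    (ρ '' (I : Set G)).Finite := by
  classical
  refine (Set.finite_range fun q : G ⧸ N =>
    if h : ∃ g ∈ I, (g : G ⧸ N) = q then ρ h.choose else 1).subset ?_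
  rintro _ ⟨g, hg, rfl⟩
  have hex : ∃ g' ∈ I, (g' : G ⧸ N) = g := ⟨g, hg, rfl⟩
  refine ⟨(g : G ⧸ N), ?_⟩
  show (if h : ∃ g' ∈ I, (g' : G ⧸ N) = (g : G ⧸ N) then ρ h.choose else 1) = ρ g
  rw [dif_pos hex]
  obtain ⟨h1, h2⟩ := hex.choose_spec
  have h3 := h _ (I.mul_mem (I.inv_mem h1) hg) (QuotientGroup.eq.1 h2)
  rw [map_mul, map_inv] at h3
  exact (inv_mul_eq_one.1 h3)

/-- The theorem. -/
theorem result (p : ℕ) [Fact p.Prime] (hp2 : p ≠ 2) (S : Finset ℕ) (hS : ∀ l ∈ S, l.Prime)
    (K : IntermediateField ℚ (AlgebraicClosure ℚ)) [FiniteDimensional ℚ K]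
    (hK : FieldUnramifiedOutside S K)
    (A : Type) [CommRing A] [IsDomain A] [IsDiscreteValuationRing A] [CharZero A]
    [TopologicalSpace A] (hA : IsAdic (maximalIdeal A)) (hfin : Finite (ResidueField A))
    (hpm : (p : A) ∈ maximalIdeal A)
    (ρ : Gal(AlgebraicClosure ℚ/ℚ) →* GL (Fin 2) A) (hρ : Continuous ρ)
    (hur : UnramifiedOver K ρ) (hres : ResiduallyUnipotent ρ)
    (hX : (∃ χ : ∀ j : ℕ, (ZMod j)ˣ →* Multiplicative (ZMod p),
        (∀ l ∈ Tame p S, ∃ x, χ l x ≠ 1) ∧ NoPlane (ResidueField A) p S χ) ∨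
      (p = 3 ∧ p ∉ S ∧ Tame p S = {7, 13, 31, 61} ∧ ¬ IsSquare (-1 : ResidueField A)) ∨
      (p = 3 ∧ Tame p S = {7, 13})) :
    (Set.range ρ).Finite := by
  classical
  have hp : p.Prime := Fact.out
  have hmem : ∀ l ∈ Tame p S, l ∈ S ∧ p ∣ l - 1 := fun l hl => Finset.mem_filter.1 hl
  have hS1 : ∀ l ∈ Tame p S, l.Prime ∧ p ∣ l - 1 := fun l hl =>
    ⟨hS l (hmem l hl).1, (hmem l hl).2⟩
  have hT1 : ∀ l ∈ Tame p S, l ≠ 1 := fun l hl => (hS1 l hl).1.ne_one
  have h1T : (1 : ℕ) ∉ Tame p S := fun h => hT1 1 h rfl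
  have hpT : ∀ l ∈ Tame p S, l ≠ p := by
    rintro l hl rfl
    have h1 := (hS1 l hl).2
    have h2 := hp.two_le
    have := Nat.le_of_dvd (by omega) h1
    omega
  have hpκ := TH831.OE.natCast_zero_iff hp hpm
  have hchar : CharP (ResidueField A) p := TH831.OE.charP_res hp hpm
  have hp0 : (p : A) ≠ 0 := by exact_mod_cast hp.ne_zero
  have hidx : K.fixingSubgroup.index ≠ 0 ∧ Finite (Gal(AlgebraicClosure ℚ/ℚ) ⧸ K.fixingSubgroup) := by
    have : CompactSpace Gal(AlgebraicClosure ℚ/ℚ) :=
      inferInstanceAs (CompactSpace (W569.FM.GF ℚ))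
    have hfi : Finite (Gal(AlgebraicClosure ℚ/ℚ) ⧸ K.fixingSubgroup) :=
      Subgroup.quotient_finite_of_isOpen _ (IntermediateField.fixingSubgroup_isOpen K)
    refine ⟨?_, hfi⟩
    rw [Subgroup.index_ne_zero_iff_finite]
    exact hfi
  have : Finite (Gal(AlgebraicClosure ℚ/ℚ) ⧸ K.fixingSubgroup) := hidx.2
  -- inertia has finite order
  have htors : ∀ P : Ideal (𝓞 (AlgebraicClosure ℚ)), P.IsMaximal →
      ∀ τ : Gal(AlgebraicClosure ℚ/ℚ), (∀ x : 𝓞 (AlgebraicClosure ℚ), τ • x - x ∈ P) →
        ∃ n : ℕ, n ≠ 0 ∧ ρ (τ ^ n) = 1 := by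
    intro P hP τ hτ
    obtain ⟨n, hn, -, hmem⟩ := Subgroup.exists_pow_mem_of_index_ne_zero hidx.1 τ
    exact ⟨n, by omega, hur P hP _ hmem ((TH831.OE.Ig P).pow_mem hτ n)⟩
  -- `p` in the ramification set
  have wild : ∀ χ : ∀ j : ℕ, (ZMod j)ˣ →* Multiplicative (ZMod p),
      (∀ l ∈ Tame p S, ∃ x, χ l x ≠ 1) →
      TH831.OE.NI (ResidueField A) (insert 1 (Tame p S)) (fun l j => if j = 1 then
        (((l - 1) / p : ℕ) : ResidueField A) else
          linking (ResidueField A) j (if l = 1 then p else l) (χ j)) → (Set.range ρ).Finite := by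
    intro χ hχ hNI
    have hS' : ∀ l ∈ S.erase p, l.Prime ∧ l ≠ p := fun l hl =>
      ⟨hS l (Finset.mem_of_mem_erase hl), Finset.ne_of_mem_erase hl⟩
    have hT' : (S.erase p).filter (fun l => p ∣ l - 1) = Tame p S := by
      ext l
      rw [Finset.mem_filter, Finset.mem_erase]
      constructor
      · rintro ⟨⟨-, h1⟩, h2⟩
        exact Finset.mem_filter.2 ⟨h1, h2⟩
      · intro h
        exact ⟨⟨hpT l h, (hmem l h).1⟩, (hmem l h).2⟩
    refine TH831.OE.wfin hp2 (S.erase p) hS' hA hfin hpm hρ hres ?_ ?_ χ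
      (fun l hl hpl => hχ l (Finset.mem_filter.2 ⟨Finset.mem_of_mem_erase hl, hpl⟩))
      (ZMod.castHom (dvd_refl p) (ResidueField A))
      (fun l j => if j = 1 then (((l - 1) / p : ℕ) : ResidueField A) else
          linking (ResidueField A) j (if l = 1 then p else l) (χ j)) ?_ ?_ ?_ (hT' ▸ hNI)
      (Or.inl fun l hl P hP hlP τ hτ => htors P hP τ hτ)
    · rintro g ⟨P, hP, h2, h3, h4⟩
      refine hur P hP g (hK P hP (fun l hl => ?_) g h4) h4
      by_cases hlp : l = p
      · rw [hlp]
        exact h3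
      · exact h2 l (Finset.mem_erase.2 ⟨hlp, hl⟩)
    · intro P hP hpP
      exact fin_image ρ K.fixingSubgroup (TH831.OE.Ig P) fun g h1 h2 => hur P hP g h2 h1
    · intro l hl hpl j hj hpj hjl x hx
      show (if j = 1 then _ else _) = _
      rw [if_neg (hS' j hj).1.ne_one, if_neg (hS' l hl).1.ne_one]
      exact linking_eq (χ j) x hx
    · intro j hj hpj x hx
      show (if j = 1 then _ else _) = _
      rw [if_neg (hS' j hj).1.ne_one, if_pos rfl]
      exact linking_eq (χ j) x hx
    · intro l hl hpl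
      exact if_pos rfl
  -- `p` not in the ramification set
  have tame : p ∉ S → ∀ χ : ∀ j : ℕ, (ZMod j)ˣ →* Multiplicative (ZMod p),
      (∀ l ∈ Tame p S, ∃ x, χ l x ≠ 1) →
      TH831.OE.NI (ResidueField A) (Tame p S) (fun l j => linking (ResidueField A) j l (χ j)) →
      (Set.range ρ).Finite := by
    intro hpS χ hχ hNI
    have hS' : ∀ l ∈ S, l.Prime ∧ l ≠ p := fun l hl => ⟨hS l hl, fun h => hpS (h ▸ hl)⟩
    obtain ⟨e, c, hc, hqc⟩ := TH831.OE.spl (B := TH831.OE.bas A) (p : A) hp0
    have he : 1 ≤ e := by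
      rcases Nat.eq_zero_or_pos e with h | h
      · exfalso
        apply hqc
        rw [((TH831.OE.bas A).ker c).2]
        have := (TH831.OE.mem_max_iff (p : A)).1 hpm
        rwa [hc, h, pow_zero, one_mul] at this
      · exact h
    obtain ⟨P0, hP0, hpP0, -⟩ := (W571.FM.main p hp).1
    obtain ⟨d⟩ := TH831.OE.exists_dat hp2 S hS' χ
      (fun l hl hpl => hχ l (Finset.mem_filter.2 ⟨hl, hpl⟩)) P0 hP0 hpP0
    obtain ⟨A', hγ, hτ, hσ, -⟩ := TH831.OE.exists_tameAr hS' hP0 hpP0 d
      (ZMod.castHom (dvd_refl p) (ResidueField A))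
      (fun l j => linking (ResidueField A) j l (χ j))
      (fun l _ _ j _ _ _ x hx => linking_eq (χ j) x hx)
    refine TH831.OE.zfinT (B := TH831.OE.bas A) hp2 hpκ he hc hqc hS' d hNI
      A' hτ hσ (TH831.OE.cts_of_continuous hA hρ) (TH831.OE.resU_of hres)
      (fun g ⟨P, hP, h2, h3⟩ => hur P hP g (hK P hP h2 g h3) h3)
      (fun l hl P hP hlP τ hτ => htors P hP τ hτ) ?_
    intro ρ' hρ'
    refine TH831.OE.exists_od_dvr hp hfin hpm fun g => ?_
    obtain ⟨N, β, hβ⟩ := hρ' g
    refine ⟨N, fun i j => ?_⟩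
    rw [TH831.OE.mem_max_iff]
    have := congrFun (congrFun hβ i) j
    exact ⟨β i j, this⟩
  rcases hX with ⟨χ, hχ, hplane⟩ | ⟨hp3, hpS, hT, hm⟩ | ⟨hp3, hT⟩
  · by_cases hpS : p ∈ S
    · refine wild χ hχ ?_
      intro x y hxy
      have hs : ∀ (l : ℕ) (z : ℕ → ResidueField A),
          ∑ j ∈ insert 1 (Tame p S), (if j = 1 then (((l - 1) / p : ℕ) : ResidueField A) else
            linking (ResidueField A) j (if l = 1 then p else l) (χ j)) * z j =
          ∑ j ∈ Tame p S, linking (ResidueField A) j (if l = 1 then p else l) (χ j) * z j +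
            (((l - 1) / p : ℕ) : ResidueField A) * z 1 := by
        intro l z
        rw [Finset.sum_insert h1T, if_pos rfl, add_comm]
        congr 1
        exact Finset.sum_congr rfl fun j hj => by rw [if_neg (hT1 j hj)]
      have h5 := hxy 1 (Finset.mem_insert_self _ _)
      rw [hs, hs, if_pos rfl, Nat.sub_self, Nat.zero_div, Nat.cast_zero, zero_mul, zero_mul,
        add_zero, add_zero] at h5
      obtain ⟨c, d, hcd, h6, h7⟩ := hplane x y (x 1) (y 1) (fun h => absurd hpS h)
        (fun l hl => by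
          have h8 := hxy l (Finset.mem_insert_of_mem hl)
          rwa [hs, hs, if_neg (hT1 l hl)] at h8) h5
      refine ⟨c, d, hcd, fun l hl => ?_⟩
      rcases Finset.mem_insert.1 hl with rfl | hl
      · exact h6
      · exact h7 l hl
    · refine tame hpS χ hχ fun x y hxy => ?_
      obtain ⟨c, d, hcd, -, h7⟩ := hplane x y 0 0 (fun _ => ⟨rfl, rfl⟩)
        (fun l hl => by rw [mul_zero, add_zero, add_zero]; exact hxy l hl)
        (by rw [zero_mul, zero_mul])
      exact ⟨c, d, hcd, h7⟩
  · -- the first example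
    subst hp3
    choose χ hχ using TH831.OE.exists_chi4
    have h3 : (3 : ResidueField A) = 0 := by
      have := (hpκ 3).2 dvd_rfl
      exact_mod_cast this
    have htab : TH831.OE.Tab (fun l j => linking (ResidueField A) j l (χ j)) := by
      have hoff : ∀ l ∈ ({7, 13, 31, 61} : Finset ℕ), ∀ j ∈ ({7, 13, 31, 61} : Finset ℕ),
          l ≠ j → linking (ResidueField A) j l (χ j) =
            ZMod.castHom (dvd_refl 3) (ResidueField A) (TH831.OE.tab l j) := by
        intro l hl j hj hlj
        have hcop : Nat.Coprime l j := by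
          rw [← hT] at hl hj
          exact (Nat.coprime_primes (hS1 l hl).1 (hS1 j hj).1).2 hlj
        rw [linking_eq (χ j) (ZMod.unitOfCoprime l hcop) (ZMod.coe_unitOfCoprime l hcop),
          (hχ j).2 hj l hl hlj _ (ZMod.coe_unitOfCoprime l hcop)]
      have hdiag : ∀ l ∈ ({7, 13, 31, 61} : Finset ℕ),
          linking (ResidueField A) l l (χ l) = 0 := by
        intro l hl
        unfold linking
        rw [dif_neg]
        rw [Nat.coprime_self]
        rw [← hT] at hl
        exact (hS1 l hl).1.ne_one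
      have c0 : ZMod.castHom (dvd_refl 3) (ResidueField A) 0 = 0 := map_zero _
      have c1 : ZMod.castHom (dvd_refl 3) (ResidueField A) 1 = 1 := map_one _
      have c2 : ZMod.castHom (dvd_refl 3) (ResidueField A) 2 = 2 := map_ofNat _ 2
      refine ⟨hdiag 7 (by decide), ?_, ?_, ?_, ?_, hdiag 13 (by decide), ?_, ?_, ?_, ?_,
        hdiag 31 (by decide), ?_, ?_, ?_, ?_, hdiag 61 (by decide)⟩
      · exact (hoff 7 (by decide) 13 (by decide) (by decide)).trans c2
      · exact (hoff 7 (by decide) 31 (by decide) (by decide)).trans c1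
      · exact (hoff 7 (by decide) 61 (by decide) (by decide)).trans c1
      · exact (hoff 13 (by decide) 7 (by decide) (by decide)).trans c0
      · exact (hoff 13 (by decide) 31 (by decide) (by decide)).trans c2
      · exact (hoff 13 (by decide) 61 (by decide) (by decide)).trans c1
      · exact (hoff 31 (by decide) 7 (by decide) (by decide)).trans c1
      · exact (hoff 31 (by decide) 13 (by decide) (by decide)).trans c0
      · exact (hoff 31 (by decide) 61 (by decide) (by decide)).trans c2
      · exact (hoff 61 (by decide) 7 (by decide) (by decide)).trans c2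
      · exact (hoff 61 (by decide) 13 (by decide) (by decide)).trans c2
      · exact (hoff 61 (by decide) 31 (by decide) (by decide)).trans c0
    refine tame hpS χ (fun l hl => (hχ l).1 (hT ▸ hl)) ?_
    have := TH831.OE.ni_ex h3 hm htab
    rw [← hT] at this
    exact this
  · -- the second example
    subst hp3
    choose χ hχ using TH831.OE.exists_chi713
    refine wild χ (fun l hl => (hχ l).1 (hT ▸ hl)) ?_
    rw [hT]
    refine TH831.OE.ni_triple (by decide) (by decide) (by decide) ?_
    have e : ∀ (j q : ℕ) (c : ZMod 3), Nat.Coprime q j →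
        (∀ x : (ZMod j)ˣ, (x : ZMod j) = (q : ZMod j) → Multiplicative.toAdd (χ j x) = c) →
        linking (ResidueField A) j q (χ j) = ZMod.castHom (dvd_refl 3) (ResidueField A) c := by
      intro j q c hcop h
      rw [linking_eq (χ j) (ZMod.unitOfCoprime q hcop) (ZMod.coe_unitOfCoprime q hcop),
        h _ (ZMod.coe_unitOfCoprime q hcop)]
    have e1 := e 7 3 1 (by decide) ((hχ 7).2.1 rfl)
    have e2 := e 7 13 0 (by decide) ((hχ 7).2.2.1 rfl)
    have e3 := e 13 3 1 (by decide) ((hχ 13).2.2.2.1 rfl)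
    have e4 := e 13 7 2 (by decide) ((hχ 13).2.2.2.2 rfl)
    simp only [if_neg (show ¬ (7 : ℕ) = 1 by decide), if_neg (show ¬ (13 : ℕ) = 1 by decide),
      if_true]
    rw [e1, e2, e3, e4, map_zero, map_one, one_mul, one_mul, zero_mul, map_ofNat]
    have h8 : ((8 : ℕ) : ResidueField A) ≠ 0 := by
      rw [Ne, hpκ]
      decide
    intro h
    apply h8
    have h9 : ((8 : ℕ) : ResidueField A) = 2 * (((13 - 1) / 3 : ℕ) : ResidueField A) := by
      norm_num
    rw [h9]
    exact h

end Pool.Agent.Results.MP_ca71b5_nt.RankTwoExtensions
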